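import Pool.Agent.TH882.Z2
import Pool.Agent.TH882.T2

/-!
Primes `p_{kn}` with `p_{kn}² + h_j` prime for which `2k + 1` has no small prime factor, for almost all
`(h_1, …, h_r)`.
-/

set_option autoImplicit false

open Finset Filter Topology

namespace Pool.Agent.Results.MP_c971ef_nt.RoughMultipliersOnAverage

/-- The `i`-th prime: `p 1 = 2`, `p 2 = 3`, `p 3 = 5`, and so on. -/
noncomputable def p (i : ℕ) : ℕ := Nat.nth Nat.Prime (i - 1)

/-- For every prime `l` there is an integer `a` such that `l` divides none of the numbers `a` and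
`a² + h_j`. -/
def Admissible {r : ℕ} (h : Fin r → ℕ) : Prop :=
  ∀ l : ℕ, l.Prime → ∃ a : ℤ, ¬ (l : ℤ) ∣ a * ∏ j, (a ^ 2 + h j)

/-- The integers `k ≥ 1` with `p_{kn} ≤ x` such that `2 k + 1` has no prime factor `≤ z`, all the
numbers `p_{kn}² + h_j` are prime, and `p_{kn+m} ≤ p_{kn} + ε log x`. -/
def good (n z m : ℕ) (ε : ℝ) {r : ℕ} (h : Fin r → ℕ) (x : ℕ) : Set ℕ :=
  {k : ℕ | 1 ≤ k ∧ p (k * n) ≤ x ∧ (∀ l : ℕ, l.Prime → l ∣ 2 * k + 1 → z < l) ∧
    (∀ j, (p (k * n) ^ 2 + h j).Prime) ∧ (p (k * n + m) : ℝ) ≤ p (k * n) + ε * Real.log x}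

open Classical in
/-- The admissible vectors with `1 ≤ h_j ≤ A x²` and with fewer than `δ x / (log x) ^ (r + 1)`
integers `k` as above. -/
noncomputable def exceptions (n z m : ℕ) (ε : ℝ) (r : ℕ) (δ : ℝ) (A x : ℕ) :
    Finset (Fin r → ℕ) :=
  (Fintype.piFinset (fun _ : Fin r => Icc 1 (A * x ^ 2))).filter (fun h => Admissible h ∧
    ((good n z m ε h x).ncard : ℝ) < δ * (x / Real.log x ^ (r + 1)))

/-- the indices -/
def S (n z : ℕ) : Set ℕ := {i : ℕ | n ∣ i ∧ ∀ l : ℕ, l.Prime → l ∣ 2 * (i / n) + 1 → z < l}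

lemma syn_S (n z : ℕ) (hn : 1 ≤ n) : Pool.Agent.TH882.HY.Syn (n * z.factorial) (S n z) := by
  intro j _
  set N := n * z.factorial with hN
  have hN1 : 1 ≤ N := Nat.mul_pos hn z.factorial_pos
  set i := (N * j - j) % N with hi
  have h1 : j ≤ N * j := Nat.le_mul_of_pos_left j hN1
  refine ⟨i, Nat.mod_lt _ hN1, ?_⟩
  have h2 : j + i ≡ 0 [MOD N] := by
    have h3 : i ≡ N * j - j [MOD N] := Nat.mod_modEq _ _
    have h4 : j + i ≡ j + (N * j - j) [MOD N] := h3.add_left j
    have h5 : j + (N * j - j) = N * j := by omega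
    rw [h5] at h4
    exact h4.trans ((Nat.modEq_zero_iff_dvd).2 (dvd_mul_right N j))
  obtain ⟨t, ht⟩ := (Nat.modEq_zero_iff_dvd).1 h2
  have h6 : j + i = n * (z.factorial * t) := by rw [ht, hN, mul_assoc]
  refine ⟨⟨_, h6⟩, fun l hl hd => ?_⟩
  rw [h6, Nat.mul_div_cancel_left _ hn] at hd
  by_contra hcon
  push Not at hcon
  have h7 : l ∣ z.factorial := (Nat.Prime.dvd_factorial hl).2 hcon
  have h8 : l ∣ 2 * (z.factorial * t) := (h7.mul_right t).mul_left 2
  have h9 : l ∣ 1 := (Nat.dvd_add_right h8).1 hd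
  exact hl.one_lt.ne' (Nat.dvd_one.1 h9)

lemma p_pi (q : ℕ) (hq : q.Prime) : p (Nat.primeCounting q) = q := by
  unfold p Nat.primeCounting Nat.primeCounting'
  rw [Nat.count_succ, if_pos hq, Nat.add_sub_cancel]
  exact Nat.nth_count hq

lemma pi_pos (q : ℕ) (hq : q.Prime) : 1 ≤ Nat.primeCounting q := by
  unfold Nat.primeCounting Nat.primeCounting'
  rw [Nat.count_succ, if_pos hq]
  omega

lemma good_finite (n z m : ℕ) (hn : 1 ≤ n) (ε : ℝ) {r : ℕ} (h : Fin r → ℕ) (x : ℕ) :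
    (good n z m ε h x).Finite := by
  apply (Finset.finite_toSet (Finset.range (x + 1))).subset
  rintro k ⟨h1, h2, -⟩
  rw [Finset.mem_coe, Finset.mem_range]
  unfold p at h2
  have e1 := Nat.add_two_le_nth_prime (k * n - 1)
  have e2 : k * 1 ≤ k * n := Nat.mul_le_mul_left k hn
  omega

/-- **Primes `p_{kn}² + h` with `2k + 1` free of small prime factors, on average over `h`.** Let
`n ≥ 1`, `z`, `m`, `r`, `A` be integers and `ε, κ > 0`. There is `δ > 0` such that for all large `x`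
and for all admissible vectors `(h_1, …, h_r)` of integers `1 ≤ h_j ≤ A x²`, with at most
`κ x ^ (2 r)` exceptions, there are at least `δ x / (log x) ^ (r + 1)` integers `k ≥ 1` with
`p_{kn} ≤ x` such that `2 k + 1` has no prime factor `≤ z`, all the numbers `p_{kn}² + h_j` are prime
and `p_{kn+m} - p_{kn} ≤ ε log x`. -/
theorem result (n z m r A : ℕ) (hn : 1 ≤ n) (ε κ : ℝ) (hε : 0 < ε) (hκ : 0 < κ) :
    ∃ δ : ℝ, 0 < δ ∧
      ∀ᶠ x : ℕ in atTop, ((exceptions n z m ε r δ A x).card : ℝ) ≤ κ * (x : ℝ) ^ (2 * r) := by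
  classical
  have hM : 1 ≤ n * z.factorial := Nat.mul_pos hn z.factorial_pos
  obtain ⟨δ, hδ, x₀, h⟩ := Pool.Agent.TH882.TS.base
    (fun _ : Fin r => (Polynomial.X ^ 2 : Polynomial ℤ)) (fun _ => by simp) (fun _ => by simp)
    (Pool.Agent.TH882.HZ2.IQ (Pool.Agent.TH882.HZ2.QK (S n z) m ε))
    (Pool.Agent.TH882.HZ2.QK_most _ m hM (S n z) (syn_S n z hn) ε hε)
    (fun x q => Nat.primeCounting q ∈ S n z ∧
      (Nat.nth Nat.Prime (Nat.primeCounting q - 1 + m) : ℝ) ≤ q + ε * Real.log x) 3 (by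
      intro x hx b q hq
      unfold Pool.Agent.TH882.HZ2.IQ at hq
      rw [mem_filter] at hq
      refine ⟨hq.2.1, hq.2.2.1, hq.2.2.2.trans ?_⟩
      have h1 : 0 < x / 3 := by omega
      have h2 : Real.log ((x / 3 : ℕ) : ℝ) ≤ Real.log x := by
        apply Real.log_le_log (by exact_mod_cast h1)
        exact_mod_cast Nat.div_le_self x 3
      have h3 := mul_le_mul_of_nonneg_left h2 hε.le
      linarith) A κ hκ
  refine ⟨δ, hδ, ?_⟩
  filter_upwards [eventually_ge_atTop x₀] with x hx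
  have h1 := h x hx
  have e0 : ∏ j : Fin r, (x : ℝ) ^ (Polynomial.X ^ 2 : Polynomial ℤ).natDegree =
      (x : ℝ) ^ (2 * r) := by
    rw [Polynomial.natDegree_X_pow, prod_const, card_univ, Fintype.card_fin, ← pow_mul]
  rw [e0] at h1
  refine le_trans ?_ h1
  apply Nat.cast_le.2
  apply card_le_card
  intro v hv
  unfold exceptions at hv
  rw [mem_filter, Fintype.mem_piFinset] at hv
  obtain ⟨hv1, hv2, hv3⟩ := hv
  rw [Pool.Agent.TH882.TS.mem_exc]
  refine ⟨?_, ?_, lt_of_le_of_lt ?_ hv3⟩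
  · intro j
    have e1 := hv1 j
    simpa using e1
  · intro l hl
    obtain ⟨a, ha⟩ := hv2 l hl
    refine ⟨a, fun hd => ha (hd.mul_right _), fun j hd => ha ?_⟩
    rw [Polynomial.eval_pow, Polynomial.eval_X, add_comm] at hd
    exact (hd.trans (dvd_prod_of_mem (fun j => a ^ 2 + (v j : ℤ)) (mem_univ j))).mul_left _
  · apply Nat.cast_le.2
    set Q := Pool.Agent.TH882.TS.cnt (fun q => Nat.primeCounting q ∈ S n z ∧
      (Nat.nth Nat.Prime (Nat.primeCounting q - 1 + m) : ℝ) ≤ q + ε * Real.log x)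
      (fun _ : Fin r => (Polynomial.X ^ 2 : Polynomial ℤ)) v x with hQ
    have hQm : ∀ q ∈ Q, q ≤ x ∧ q.Prime ∧ Nat.primeCounting q ∈ S n z ∧
        (Nat.nth Nat.Prime (Nat.primeCounting q - 1 + m) : ℝ) ≤ q + ε * Real.log x ∧
        ∀ j, (q ^ 2 + v j).Prime := by
      intro q hq
      rw [hQ, Pool.Agent.TH882.TS.mem_cnt, mem_Icc] at hq
      refine ⟨hq.1.2, hq.2.1, hq.2.2.1.1, hq.2.2.1.2, fun j => ?_⟩
      have e1 := hq.2.2.2 j
      have e2 : ((v j : ℤ) + (Polynomial.X ^ 2 : Polynomial ℤ).eval (q : ℤ)).toNat =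
          q ^ 2 + v j := by
        rw [Polynomial.eval_pow, Polynomial.eval_X]
        have : (v j : ℤ) + (q : ℤ) ^ 2 = ((q ^ 2 + v j : ℕ) : ℤ) := by
          push_cast
          ring
        rw [this, Int.toNat_natCast]
      rw [e2] at e1
      exact e1
    have hinj : Set.InjOn (fun q => Nat.primeCounting q / n) (Q : Set ℕ) := by
      intro q hq q' hq' he
      simp only at he
      have g1 := hQm q hq
      have g2 := hQm q' hq'
      have e1 : Nat.primeCounting q = Nat.primeCounting q' := by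
        rw [← Nat.div_mul_cancel g1.2.2.1.1, ← Nat.div_mul_cancel g2.2.2.1.1, he]
      rw [← p_pi q g1.2.1, ← p_pi q' g2.2.1, e1]
    rw [← card_image_of_injOn hinj, ← Set.ncard_coe_finset]
    apply Set.ncard_le_ncard _ (good_finite n z m hn ε v x)
    intro k hk
    rw [mem_coe, mem_image] at hk
    obtain ⟨q, hq, rfl⟩ := hk
    obtain ⟨g1, g2, g3, g4, g5⟩ := hQm q hq
    have e1 : Nat.primeCounting q / n * n = Nat.primeCounting q := Nat.div_mul_cancel g3.1
    have e2 := pi_pos q g2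
    refine ⟨?_, ?_, g3.2, ?_, ?_⟩
    · apply Nat.div_pos (Nat.le_of_dvd (by omega) g3.1) hn
    · rw [e1, p_pi q g2]
      exact g1
    · intro j
      rw [e1, p_pi q g2]
      exact g5 j
    · rw [e1, p_pi q g2]
      have e3 : p (Nat.primeCounting q + m) =
          Nat.nth Nat.Prime (Nat.primeCounting q - 1 + m) := by
        unfold p
        congr 1
        omega
      rw [e3]
      exact g4

end Pool.Agent.Results.MP_c971ef_nt.RoughMultipliersOnAverage
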